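import Pool.Agent.Lib.MP_fdca68_pr.Final

/-!
# Concentration of the largest rainbow tree in randomly coloured sparse random graphs

`G_c(n,p)`: every pair of vertices is absent with probability `1 - p` and present with colour
`k` with probability `p / c`, independently (`Conf`, `wt`). `T ω` is the largest order of a
rainbow tree. For all constants `α, ε > 0`, for `p = (1 + ε) / n` and `c = c(n)` colours with
`c(n) / n → α` (in particular `α n` rounded in any way), `T = (1 + o(1)) E T` with high
probability.
-/

namespace Pool.Agent.Results.MP_fdca68_pr.RainbowTreeConcentration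

open Pool.Agent.Lib.MP_fdca68_pr Filter
open scoped Topology

theorem result (α ε : ℝ) (hα : 0 < α) (hε : 0 < ε) (c : ℕ → ℕ)
    (hc : Tendsto (fun n => (c n : ℝ) / n) atTop (𝓝 α)) (δ : ℝ) (hδ : 0 < δ) :
    Tendsto (fun n : ℕ => Pr n (c n) ((1 + ε) / n)
      {ω | |(T ω : ℝ) - Ex n (c n) ((1 + ε) / n) (fun ω => (T ω : ℝ))| ≤
        δ * Ex n (c n) ((1 + ε) / n) (fun ω => (T ω : ℝ))}) atTop (𝓝 1) :=
  concentration α ε hα hε c hc δ hδ

end Pool.Agent.Results.MP_fdca68_pr.RainbowTreeConcentration
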